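import Pool.Agent.TH523.WilData

/-! MP_f288ff_co: Williamson Hadamard matrices of order `4 w` for every `w ≤ 64`, and more. -/

set_option autoImplicit false
open Matrix
open Pool.Agent.TH523.Wil

namespace Pool.Agent.Results.MP_f288ff_co.SmallOrders

theorem odds (m : ℕ) (h : m % 2 = 1) (hm : m ≤ 63 ∨ m ∈ [67, 69, 73, 75, 77, 79, 83, 85, 87, 91, 97, 99]) :
    W m := by
  rcases hm with hm | hm
  · interval_cases m
    · simp at h
    · exact w1
    · simp at h
    · exact w3
    · simp at h
    · exact w5
    · simp at h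
    · exact w7
    · simp at h
    · exact w9
    · simp at h
    · exact w11
    · simp at h
    · exact w13
    · simp at h
    · exact w15
    · simp at h
    · exact w17
    · simp at h
    · exact w19
    · simp at h
    · exact w21
    · simp at h
    · exact w23
    · simp at h
    · exact w25
    · simp at h
    · exact w27
    · simp at h
    · exact w29
    · simp at h
    · exact w31
    · simp at h
    · exact w33
    · simp at h
    · exact w35
    · simp at h
    · exact w37
    · simp at h
    · exact w39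
    · simp at h
    · exact w41
    · simp at h
    · exact w43
    · simp at h
    · exact w45
    · simp at h
    · exact w47
    · simp at h
    · exact w49
    · simp at h
    · exact w51
    · simp at h
    · exact w53
    · simp at h
    · exact w55
    · simp at h
    · exact w57
    · simp at h
    · exact w59
    · simp at h
    · exact w61
    · simp at h
    · exact w63
  · simp only [List.mem_cons, List.not_mem_nil, or_false] at hm
    rcases hm with rfl | rfl | rfl | rfl | rfl | rfl | rfl | rfl | rfl | rfl | rfl | rfl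
    · exact w67
    · exact w69
    · exact w73
    · exact w75
    · exact w77
    · exact w79
    · exact w83
    · exact w85
    · exact w87
    · exact w91
    · exact w97
    · exact w99

theorem pows (m k : ℕ) (h : W m) : W (2 ^ k * m) := by
  induction k with
  | zero => simpa using h
  | succ k ih =>
    have := ih.dbl
    rwa [← mul_assoc, ← pow_succ'] at this

/-- Williamson Hadamard matrices of order `n = 4 w` exist for every `w = 2 ^ k * m` with `m` odd,
`m ≤ 63` or `m` in the list; in particular for every `n ≤ 256` divisible by `4`. -/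
theorem result :
    ∀ k m n : ℕ, m % 2 = 1 → (m ≤ 63 ∨ m ∈ [67, 69, 73, 75, 77, 79, 83, 85, 87, 91, 97, 99]) →
      n = 4 * (2 ^ k * m) →
      ∃ w : ℕ, n = 4 * w ∧
        ∃ A B C D : Matrix (Fin w) (Fin w) ℤ,
          (∀ i j, A i j = 1 ∨ A i j = -1) ∧
          (∀ i j, B i j = 1 ∨ B i j = -1) ∧
          (∀ i j, C i j = 1 ∨ C i j = -1) ∧
          (∀ i j, D i j = 1 ∨ D i j = -1) ∧
          A * Bᵀ = B * Aᵀ ∧ A * Cᵀ = C * Aᵀ ∧ A * Dᵀ = D * Aᵀ ∧
          B * Cᵀ = C * Bᵀ ∧ B * Dᵀ = D * Bᵀ ∧ C * Dᵀ = D * Cᵀ ∧
          A * Aᵀ + B * Bᵀ + C * Cᵀ + D * Dᵀ = ((4 * w : ℕ) : ℤ) • (1 : Matrix (Fin w) (Fin w) ℤ) ∧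
          (Matrix.fromBlocks (Matrix.fromBlocks A B B (-A)) (Matrix.fromBlocks C D D (-C))
              (Matrix.fromBlocks C (-D) D C) (Matrix.fromBlocks (-A) B (-B) (-A))) *
            (Matrix.fromBlocks (Matrix.fromBlocks A B B (-A)) (Matrix.fromBlocks C D D (-C))
              (Matrix.fromBlocks C (-D) D C) (Matrix.fromBlocks (-A) B (-B) (-A)))ᵀ
            = ((4 * w : ℕ) : ℤ) • (1 : Matrix ((Fin w ⊕ Fin w) ⊕ (Fin w ⊕ Fin w))
                ((Fin w ⊕ Fin w) ⊕ (Fin w ⊕ Fin w)) ℤ) := by
  intro k m n h1 h2 h3
  exact ⟨2 ^ k * m, h3, (pows m k (odds m h1 h2)).unfold⟩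

end Pool.Agent.Results.MP_f288ff_co.SmallOrders
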